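import Pool.Agent.H37.CTL.Stmts
import Pool.Agent.H37.CND.Base

/-!
# Row T51 of the board `ctl`: the orders of the roots at infinity, case (II)
-/

set_option autoImplicit false

namespace Pool.CND

open Finset

namespace T51x

/-- a cover is finite and separable over `k(t)` -/
theorem fin_sep {k L G : Type} [Field k] [Field L] [Algebra k L] [Group G] [Finite G]
    (ρ : G →* (L ≃ₐ[k] L)) (t : L)
    (h : IsCover ρ t) : Module.Finite (IntermediateField.adjoin k {t}) L ∧
      Algebra.IsSeparable (IntermediateField.adjoin k {t}) L := by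
  let H : Subgroup (L ≃ₐ[k] L) := ρ.range
  have hHf : Finite H := by
    have h2 : (Set.range ρ).Finite := Set.finite_range ρ
    have h3 : (H : Set (L ≃ₐ[k] L)) = Set.range ρ := MonoidHom.coe_range ρ
    have : (H : Set (L ≃ₐ[k] L)).Finite := by rw [h3]; exact h2
    exact this.to_subtype
  have hE : IntermediateField.fixedField H = IntermediateField.adjoin k {t} := by
    ext z
    rw [IntermediateField.mem_fixedField_iff, ← h.fixed]
    constructor
    · intro h4 g
      exact h4 (ρ g) ⟨g, rfl⟩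
    · rintro h4 f ⟨g, rfl⟩
      exact h4 g
  have hfin : Module.Finite (IntermediateField.fixedField H) L :=
    (inferInstance : FiniteDimensional (FixedPoints.subfield H L) L)
  have hsep : Algebra.IsSeparable (IntermediateField.fixedField H) L :=
    (inferInstance : Algebra.IsSeparable (FixedPoints.subfield H L) L)
  rw [← hE]
  exact ⟨hfin, hsep⟩

section

variable {k L : Type} [Field k] [Field L] [Algebra k L] (P : Place k L)

theorem four {x y z w : L} (hx : x ≠ 0) (hy : y ≠ 0 → P.ord x < P.ord y)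
    (hz : z ≠ 0 → P.ord x < P.ord z) (hw : w ≠ 0 → P.ord x < P.ord w) :
    x + (y + (z + w)) ≠ 0 := by
  have h1 : ∀ u : L, (u ≠ 0 → P.ord x < P.ord u) → P.Ge u (P.ord x + 1) := by
    intro u hu
    by_cases h0 : u = 0
    · exact Or.inl h0
    · exact Or.inr (hu h0)
  exact (P.ord_add_of_lt hx (P.ge_add (h1 y hy) (P.ge_add (h1 z hz) (h1 w hw)))).1

theorem ord_prod {ι : Type} (s : Finset ι) (f : ι → L) (hf : ∀ i ∈ s, f i ≠ 0) :
    P.ord (∏ i ∈ s, f i) = ∑ i ∈ s, P.ord (f i) := by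
  classical
  induction s using Finset.induction_on with
  | empty => simp [P.ord_one]
  | insert a s ha ih =>
    rw [Finset.prod_insert ha, Finset.sum_insert ha, P.ord_mul _ _
      (hf a (mem_insert_self a s))
      (Finset.prod_ne_zero_iff.mpr (fun i hi => hf i (mem_insert_of_mem hi))),
      ih (fun i hi => hf i (mem_insert_of_mem hi))]

/-- the possible orders of a root -/
theorem kinds (q : ℕ) (hq : 3 ≤ q) (τ o : ℤ) (hτ : τ < 0) (x A B : L) (hx : x ≠ 0) (hA : A ≠ 0)
    (hB : B ≠ 0) (ho : P.ord x = o) (hA' : P.ord A = ((q : ℤ) ^ 2 - q) * τ)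
    (hB' : P.ord B = ((q : ℤ) ^ 2 - 2) * τ)
    (hrel : x ^ q ^ 3 + A * x ^ q ^ 2 + B * x ^ q + x = 0) :
    ((q : ℤ) - 1) * o = -(((q : ℤ) ^ 2 - 2) * τ) ∨
    (q : ℤ) * ((q : ℤ) - 1) * o = ((q : ℤ) - 2) * τ ∨ (q : ℤ) * o = τ := by
  have hQ : (3 : ℤ) ≤ q := by exact_mod_cast hq
  set Q : ℤ := (q : ℤ) with hQd
  have o1 : P.ord (x ^ q ^ 3) = Q ^ 3 * o := by
    rw [P.ord_pow hx, ho]; push_cast; rfl
  have o2 : P.ord (A * x ^ q ^ 2) = (Q ^ 2 - Q) * τ + Q ^ 2 * o := by
    rw [P.ord_mul _ _ hA (pow_ne_zero _ hx), P.ord_pow hx, ho, hA']; push_cast; rfl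
  have o3 : P.ord (B * x ^ q) = (Q ^ 2 - 2) * τ + Q * o := by
    rw [P.ord_mul _ _ hB (pow_ne_zero _ hx), P.ord_pow hx, ho, hB']
  have n1 : x ^ q ^ 3 ≠ 0 := pow_ne_zero _ hx
  have n2 : A * x ^ q ^ 2 ≠ 0 := mul_ne_zero hA (pow_ne_zero _ hx)
  have n3 : B * x ^ q ≠ 0 := mul_ne_zero hB (pow_ne_zero _ hx)
  rcases lt_trichotomy (Q * o) τ with hc | hc | hc
  · exfalso
    have e1 : (Q ^ 2 - 1) * (Q * o) < (Q ^ 2 - 1) * τ :=
      mul_lt_mul_of_pos_left hc (by nlinarith)
    have e2 : Q ^ 2 * (Q * o) < Q ^ 2 * τ := mul_lt_mul_of_pos_left hc (by nlinarith)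
    have e3 : Q * ((Q - 1) * (Q * o)) < Q * ((Q - 1) * τ) :=
      mul_lt_mul_of_pos_left (mul_lt_mul_of_pos_left hc (by linarith)) (by linarith)
    have ho0 : o < 0 := by nlinarith
    refine four P n1 (fun _ => ?_) (fun _ => ?_) (fun _ => ?_)
      (y := A * x ^ q ^ 2) (z := B * x ^ q) (w := x) ?_
    · rw [o1, o2]; nlinarith
    · rw [o1, o3]; nlinarith
    · rw [o1, ho]; nlinarith [mul_pos (mul_pos (show (0:ℤ) < Q by linarith) (show (0:ℤ) < Q by linarith)) (show (0:ℤ) < Q by linarith)]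
    · linear_combination hrel
  · exact Or.inr (Or.inr hc)
  · rcases lt_trichotomy (Q * (Q - 1) * o) ((Q - 2) * τ) with hb | hb | hb
    · exfalso
      have ho0 : o < 0 := by
        by_contra h
        rw [not_lt] at h
        have : 0 ≤ Q * (Q - 1) * o := mul_nonneg (mul_nonneg (by linarith) (by linarith)) h
        have : (Q - 2) * τ < 0 := mul_neg_of_pos_of_neg (by linarith) hτ
        linarith
      have e3 : Q * ((Q - 1) * τ) < Q * ((Q - 1) * (Q * o)) :=
        mul_lt_mul_of_pos_left (mul_lt_mul_of_pos_left hc (by linarith)) (by linarith)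
      refine four P n2 (fun _ => ?_) (fun _ => ?_) (fun _ => ?_)
        (y := x ^ q ^ 3) (z := B * x ^ q) (w := x) ?_
      · rw [o1, o2]; nlinarith
      · rw [o3, o2]; nlinarith
      · rw [o2, ho]
        have h1 : (Q ^ 2 - Q) * τ < 0 := mul_neg_of_pos_of_neg (by nlinarith) hτ
        have h2 : (Q ^ 2 - 1) * o < 0 := mul_neg_of_pos_of_neg (by nlinarith) ho0
        nlinarith
      · linear_combination hrel
    · exact Or.inr (Or.inl hb)
    · rcases lt_trichotomy ((Q - 1) * o) (-((Q ^ 2 - 2) * τ)) with ha | ha | ha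
      · exfalso
        have e3 : (Q + 1) * ((Q - 2) * τ) < (Q + 1) * (Q * (Q - 1) * o) :=
          mul_lt_mul_of_pos_left hb (by linarith)
        have e4 : Q * τ < 0 := mul_neg_of_pos_of_neg (by linarith) hτ
        refine four P n3 (fun _ => ?_) (fun _ => ?_) (fun _ => ?_)
          (y := x ^ q ^ 3) (z := A * x ^ q ^ 2) (w := x) ?_
        · rw [o1, o3]; nlinarith
        · rw [o3, o2]; nlinarith
        · rw [o3, ho]; nlinarith
        · linear_combination hrel
      · exact Or.inl ha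
      · exfalso
        have h0 : 0 < -((Q ^ 2 - 2) * τ) := by
          have : (Q ^ 2 - 2) * τ < 0 := mul_neg_of_pos_of_neg (by nlinarith) hτ
          linarith
        have ho0 : 0 < o := by
          by_contra h
          rw [not_lt] at h
          have : (Q - 1) * o ≤ 0 := mul_nonpos_of_nonneg_of_nonpos (by linarith) h
          linarith
        have e3 : (Q + 1) * (-((Q ^ 2 - 2) * τ)) < (Q + 1) * ((Q - 1) * o) :=
          mul_lt_mul_of_pos_left ha (by linarith)
        have e5 : (Q ^ 3 - Q) * τ < (Q ^ 2 - Q) * τ - 0 := by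
          have : (Q ^ 3 - Q ^ 2) * τ < 0 := mul_neg_of_pos_of_neg (by nlinarith) hτ
          nlinarith
        refine four P hx (fun _ => ?_) (fun _ => ?_) (fun _ => ?_)
          (y := x ^ q ^ 3) (z := A * x ^ q ^ 2) (w := B * x ^ q) ?_
        · rw [o1, ho]
          have : 0 < (Q ^ 3 - 1) * o := mul_pos (by nlinarith) ho0
          nlinarith
        · rw [o2, ho]
          have e6 : (Q + 1) * ((Q ^ 2 - 2) * τ) ≤ (Q ^ 2 - Q) * τ := by
            have : (Q ^ 3 - Q - 2) * τ < 0 := mul_neg_of_pos_of_neg (by nlinarith) hτ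
            nlinarith
          nlinarith
        · rw [o3, ho]; nlinarith
        · linear_combination hrel

end

/-- a monic polynomial with enough roots -/
theorem prod_roots {L : Type} [Field L] (p : Polynomial L) (hp : p.Monic) (s : Finset L)
    (hs : ∀ y ∈ s, p.IsRoot y) (hc : p.natDegree = s.card) :
    ∏ y ∈ s, (-y) = p.eval 0 := by
  classical
  have h1 : s.val ≤ p.roots := by
    rw [Multiset.le_iff_subset s.nodup]
    intro y hy
    rw [Polynomial.mem_roots hp.ne_zero]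
    exact hs y hy
  have h2 : s.val = p.roots := by
    apply Multiset.eq_of_le_of_card_le h1
    refine (p.card_roots').trans ?_
    rw [hc]
    rfl
  have h3 := Polynomial.prod_multiset_X_sub_C_of_monic_of_roots_card_eq hp
    (by rw [← h2, hc]; rfl)
  rw [← h2] at h3
  have h4 : (∏ y ∈ s, (Polynomial.X - Polynomial.C y)).eval 0 = p.eval 0 := by
    rw [← h3]
    rfl
  rw [← h4, Polynomial.eval_prod]
  refine Finset.prod_congr rfl (fun y _ => ?_)
  simp

/-- the numbers of the roots of the three kinds -/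
theorem count (q a b c : ℤ) (hq : 3 ≤ q) (hb : 0 ≤ b) (hc : 0 ≤ c)
    (h1 : a * (q * (q ^ 2 - 2)) = b * (q - 2) + c * (q - 1)) (h2 : a + b + c = q ^ 3 - 1)
    (h3 : 1 ≤ a → q - 1 ≤ a) (ha : 0 ≤ a) : 1 ≤ a ∧ 1 ≤ b ∧ 1 ≤ c := by
  have ha1 : 1 ≤ a := by
    by_contra h
    have h0 : a = 0 := by omega
    subst h0
    have h5 : 0 < b + c := by nlinarith
    rcases lt_or_eq_of_le hb with h6 | h6
    · nlinarith [mul_pos h6 (show (0 : ℤ) < q - 2 by linarith),
        mul_nonneg hc (show (0 : ℤ) ≤ q - 1 by linarith)]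
    · subst h6
      nlinarith [mul_pos (show 0 < c by linarith) (show (0 : ℤ) < q - 1 by linarith)]
  have ha2 : a ≤ q - 1 := by
    by_contra h
    have h5 : q ≤ a := by omega
    have h6 : a * (q * (q ^ 2 - 2)) ≤ (q - 1) * (q ^ 3 - 1 - a) := by nlinarith
    have h7 : q * (q * (q ^ 2 - 2)) ≤ a * (q * (q ^ 2 - 2)) :=
      mul_le_mul_of_nonneg_right h5 (by nlinarith)
    have h8 : (q - 1) * (q ^ 3 - 1 - a) ≤ (q - 1) * (q ^ 3 - 1 - q) :=
      mul_le_mul_of_nonneg_left (by linarith) (by linarith)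
    nlinarith [mul_pos (show (0:ℤ) < q by linarith) (show (0:ℤ) < q by linarith)]
  have ha3 : a = q - 1 := le_antisymm ha2 (h3 ha1)
  subst ha3
  have hb' : b = q ^ 2 - q := by
    have : c = q ^ 3 - 1 - (q - 1) - b := by linarith
    subst this
    linarith [h1, (by ring : (q - 1) * (q * (q ^ 2 - 2)) - (b * (q - 2) +
      (q ^ 3 - 1 - (q - 1) - b) * (q - 1)) = b - (q ^ 2 - q))]
  have hc' : c = q ^ 3 - q ^ 2 := by linarith
  refine ⟨ha1, ?_, ?_⟩
  · rw [hb']; nlinarith
  · rw [hc']; nlinarith [mul_pos (show (0:ℤ) < q by linarith) (show (0:ℤ) < q by linarith)]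

section

variable {k F L : Type} [Field k] [Field F] [Algebra F k] [Field L] [Algebra k L]

/-- the combination of the roots -/
def xc (k : Type) {F L : Type} [Field k] [Field F] [Algebra F k] [Field L] [Algebra k L]
    (X : Fin 3 → L) (c : Fin 3 → F) : L := ∑ i, cst k F L (c i) * X i

theorem xc_smul (X : Fin 3 → L) (a : F) (c : Fin 3 → F) :
    xc k X (a • c) = cst k F L a * xc k X c := by
  unfold xc cst
  rw [Finset.mul_sum]
  refine Finset.sum_congr rfl (fun i _ => ?_)
  rw [Pi.smul_apply, smul_eq_mul, map_mul, map_mul, mul_assoc]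

theorem xc_sub (X : Fin 3 → L) (c d : Fin 3 → F) :
    xc k X (c - d) = xc k X c - xc k X d := by
  unfold xc cst
  rw [← Finset.sum_sub_distrib]
  refine Finset.sum_congr rfl (fun i _ => ?_)
  rw [Pi.sub_apply, map_sub, map_sub, sub_mul]

theorem xc_frob (p f q : ℕ) [Finite F] (hp : p.Prime) (hk : CharP k p) (hq : q = p ^ f)
    (hF : Nat.card F = q) (X : Fin 3 → L) (c : Fin 3 → F) :
    xc k X c ^ q = ∑ i, cst k F L (c i) * X i ^ q := by
  have hL : CharP L p := charP_of_injective_algebraMap (algebraMap k L).injective p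
  have hpf : Fact p.Prime := ⟨hp⟩
  have hFt : Fintype F := Fintype.ofFinite F
  have hc : ∀ a : F, cst k F L a ^ q = cst k F L a := by
    intro a
    have h1 : a ^ q = a := by
      rw [← hF, Nat.card_eq_fintype_card]
      exact FiniteField.pow_card a
    unfold cst
    rw [← map_pow, ← map_pow, h1]
  unfold xc
  rw [hq, sum_pow_char_pow, ← hq]
  refine Finset.sum_congr rfl (fun i _ => ?_)
  rw [mul_pow, hc]

theorem xc_rel (p f q : ℕ) [Finite F] (hp : p.Prime) (hk : CharP k p) (hq : q = p ^ f)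
    (hF : Nat.card F = q) (a b : Polynomial k) (t : L) (X : Fin 3 → L)
    (hS : S3 k F L q a b t X) (c : Fin 3 → F) :
    xc k X c ^ q ^ 3 + Polynomial.aeval t a * xc k X c ^ q ^ 2 + Polynomial.aeval t b * xc k X c ^ q +
      xc k X c = 0 := by
  have h1 := xc_frob p f q hp hk hq hF X c
  have h2 : xc k X c ^ q ^ 2 = ∑ i, cst k F L (c i) * X i ^ q ^ 2 := by
    rw [pow_two q, pow_mul, h1]
    have h3 := xc_frob p f q hp hk hq hF (fun i => X i ^ q) c
    unfold xc at h3
    rw [h3]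
    refine Finset.sum_congr rfl (fun i _ => ?_)
    rw [pow_mul]
  have h3 : xc k X c ^ q ^ 3 = ∑ i, cst k F L (c i) * X i ^ q ^ 3 := by
    rw [pow_succ q 2, pow_mul, h2]
    have h4 := xc_frob p f q hp hk hq hF (fun i => X i ^ q ^ 2) c
    unfold xc at h4
    rw [h4]
    refine Finset.sum_congr rfl (fun i _ => ?_)
    rw [pow_mul]
  rw [h1, h2, h3]
  have h5 : (∑ i, cst k F L (c i) * X i ^ q ^ 3) +
      Polynomial.aeval t a * (∑ i, cst k F L (c i) * X i ^ q ^ 2) +
      Polynomial.aeval t b * (∑ i, cst k F L (c i) * X i ^ q) + xc k X c =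
      ∑ i, cst k F L (c i) * (X i ^ q ^ 3 + Polynomial.aeval t a * X i ^ q ^ 2 +
        Polynomial.aeval t b * X i ^ q + X i) := by
    unfold xc
    rw [Finset.mul_sum, Finset.mul_sum, ← Finset.sum_add_distrib, ← Finset.sum_add_distrib,
      ← Finset.sum_add_distrib]
    refine Finset.sum_congr rfl (fun i _ => ?_)
    ring
  rw [h5]
  refine Finset.sum_eq_zero (fun i _ => ?_)
  rw [hS.rel i, mul_zero]

/-- the product of the nonzero roots -/
theorem sum_ord (p f q : ℕ) [Fintype F] [DecidableEq F] (hp : p.Prime) (hk : CharP k p)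
    (hf : 1 ≤ f)
    (hq : q = p ^ f) (hF : Nat.card F = q) (a b : Polynomial k) (t : L) (X : Fin 3 → L)
    (hS : S3 k F L q a b t X) (P : Place k L) :
    ∑ c ∈ (univ : Finset (Fin 3 → F)).filter (fun c => c ≠ 0), P.ord (xc k X c) = 0 := by
  classical
  have hq2 : 2 ≤ q := by
    rw [hq]
    calc 2 ≤ p := hp.two_le
      _ = p ^ 1 := (pow_one p).symm
      _ ≤ p ^ f := Nat.pow_le_pow_right hp.pos hf
  have hinj : Function.Injective (xc k X : (Fin 3 → F) → L) := by
    intro c d h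
    have h1 : xc k X (c - d) = 0 := by rw [xc_sub, h, sub_self]
    exact sub_eq_zero.mp (hS.ind _ h1)
  have hne : ∀ c : Fin 3 → F, c ≠ 0 → xc k X c ≠ 0 := fun c hc h => hc (hS.ind c h)
  set R : Finset (Fin 3 → F) := (univ : Finset (Fin 3 → F)).filter (fun c => c ≠ 0) with hR
  set s : Finset L := R.image (xc k X) with hs
  have hcard : s.card = q ^ 3 - 1 := by
    rw [hs, Finset.card_image_of_injective _ hinj, hR, Finset.filter_ne', Finset.card_erase_of_mem
      (Finset.mem_univ _), Finset.card_univ, Fintype.card_fun, Fintype.card_fin,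
      ← Nat.card_eq_fintype_card, hF]
  set A := Polynomial.aeval t a with hA
  set B := Polynomial.aeval t b with hB
  have e1 : q ≤ q ^ 2 := by nlinarith
  have e2 : q ^ 2 < q ^ 3 := by
    calc q ^ 2 = q ^ 2 * 1 := (mul_one _).symm
      _ < q ^ 2 * q := Nat.mul_lt_mul_of_pos_left (by omega) (by positivity)
      _ = q ^ 3 := by ring
  let g : Polynomial L := Polynomial.C A * Polynomial.X ^ (q ^ 2 - 1) +
    Polynomial.C B * Polynomial.X ^ (q - 1) + 1
  have hg : g.degree < ((q ^ 3 - 1 : ℕ) : WithBot ℕ) := by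
    refine lt_of_le_of_lt (Polynomial.degree_add_le _ _) (max_lt (lt_of_le_of_lt
      (Polynomial.degree_add_le _ _) (max_lt ?_ ?_)) ?_)
    · refine lt_of_le_of_lt (Polynomial.degree_C_mul_X_pow_le _ _) ?_
      exact_mod_cast (by omega : q ^ 2 - 1 < q ^ 3 - 1)
    · refine lt_of_le_of_lt (Polynomial.degree_C_mul_X_pow_le _ _) ?_
      exact_mod_cast (by omega : q - 1 < q ^ 3 - 1)
    · rw [Polynomial.degree_one]
      exact_mod_cast (by omega : 0 < q ^ 3 - 1)
  have hmon : (Polynomial.X ^ (q ^ 3 - 1) + g).Monic := Polynomial.monic_X_pow_add hg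
  have hdeg : (Polynomial.X ^ (q ^ 3 - 1) + g).natDegree = q ^ 3 - 1 := by
    rw [Polynomial.natDegree_add_eq_left_of_degree_lt, Polynomial.natDegree_X_pow]
    rw [Polynomial.degree_X_pow]
    exact hg
  have hroot : ∀ y ∈ s, (Polynomial.X ^ (q ^ 3 - 1) + g).IsRoot y := by
    intro y hy
    obtain ⟨c, hc, rfl⟩ := Finset.mem_image.mp hy
    have hc0 : c ≠ 0 := (Finset.mem_filter.mp hc).2
    have hx := hne c hc0
    have hr := xc_rel p f q hp hk hq hF a b t X hS c
    set y := xc k X c with hy'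
    have h6 : y * (y ^ (q ^ 3 - 1) + (A * y ^ (q ^ 2 - 1) + B * y ^ (q - 1) + 1)) = 0 := by
      have f1 : y * y ^ (q ^ 3 - 1) = y ^ q ^ 3 := by
        rw [← pow_succ']; congr 1; omega
      have f2 : y * y ^ (q ^ 2 - 1) = y ^ q ^ 2 := by
        rw [← pow_succ']; congr 1; omega
      have f3 : y * y ^ (q - 1) = y ^ q := by
        rw [← pow_succ']; congr 1; omega
      linear_combination hr + f1 + A * f2 + B * f3
    have h7 := (mul_eq_zero.mp h6).resolve_left hx
    show Polynomial.eval y (Polynomial.X ^ (q ^ 3 - 1) + (Polynomial.C A *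
      Polynomial.X ^ (q ^ 2 - 1) + Polynomial.C B * Polynomial.X ^ (q - 1) + 1)) = 0
    simpa using h7
  have hprod := prod_roots _ hmon s hroot (by rw [hdeg, hcard])
  have hev : (Polynomial.X ^ (q ^ 3 - 1) + (Polynomial.C A *
      Polynomial.X ^ (q ^ 2 - 1) + Polynomial.C B * Polynomial.X ^ (q - 1) + 1) :
      Polynomial L).eval 0 = 1 := by
    have g1 : q ^ 3 - 1 ≠ 0 := by omega
    have g2 : q ^ 2 - 1 ≠ 0 := by
      have : 2 * 2 ≤ q * q := Nat.mul_le_mul hq2 hq2
      rw [pow_two]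
      omega
    have g3 : q - 1 ≠ 0 := by omega
    simp [g1, g2, g3]
  have hprod2 : ∏ y ∈ s, (-y) = 1 := by rw [hprod]; exact hev
  have h8 : P.ord (∏ y ∈ s, (-y)) = ∑ y ∈ s, P.ord y := by
    rw [ord_prod P s (fun y => -y)]
    · exact Finset.sum_congr rfl (fun y _ => P.ord_neg y)
    · intro y hy
      obtain ⟨c, hc, rfl⟩ := Finset.mem_image.mp hy
      exact neg_ne_zero.mpr (hne c (Finset.mem_filter.mp hc).2)
  rw [hprod2, P.ord_one, hs, Finset.sum_image (fun c _ d _ h => hinj h)] at h8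
  exact h8.symm

end

end T51x

open T51x in
theorem t51_thm (h32 : S_T32) (h36 : S_T36) (hEXI : S_EXI) : S_T51 := by
  classical
  intro p k F _ _ _ _ f q hp hp2 hk hf hq hF
  obtain ⟨L, iL, iA, t, X, G₀, ρ, hS, hC⟩ := h32 p k F f q
    (Polynomial.X ^ (q ^ 2 - q) - Polynomial.C 2 * Polynomial.X ^ (q ^ 2 - q - 1))
    (-Polynomial.X ^ (q ^ 2 - 2)) hp hk hf hq hF
  have hq3 : 3 ≤ q := by
    rw [hq]
    calc 3 ≤ p := by
          have := hp.two_le
          omega
      _ = p ^ 1 := (pow_one p).symm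
      _ ≤ p ^ f := Nat.pow_le_pow_right hp.pos hf
  have hFf : Finite F := Nat.finite_of_card_ne_zero (by rw [hF]; omega)
  have hFt : Fintype F := Fintype.ofFinite F
  have hGf : Finite (Matrix.SpecialLinearGroup (Fin 3) F) := by
    have h1 : Finite (Matrix (Fin 3) (Fin 3) F) := inferInstanceAs (Finite (Fin 3 → Fin 3 → F))
    exact inferInstanceAs (Finite {A : Matrix (Fin 3) (Fin 3) F // A.det = 1})
  obtain ⟨hfin, hsep⟩ := fin_sep ρ t hC.cov
  obtain ⟨P, hP⟩ := hEXI k L t hS.tr hfin hsep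
  have hQ : (3 : ℤ) ≤ q := by exact_mod_cast hq3
  have ht0 : t ≠ 0 := by
    rintro rfl
    exact hS.tr (isAlgebraic_zero)
  have e1 : q ≤ q ^ 2 := by nlinarith
  have e2 : q + 1 ≤ q ^ 2 := by nlinarith
  have e3 : 2 ≤ q ^ 2 := by nlinarith
  have hA : Polynomial.aeval t (Polynomial.X ^ (q ^ 2 - q) -
      Polynomial.C 2 * Polynomial.X ^ (q ^ 2 - q - 1) : Polynomial k) ≠ 0 ∧
      P.ord (Polynomial.aeval t (Polynomial.X ^ (q ^ 2 - q) -
      Polynomial.C 2 * Polynomial.X ^ (q ^ 2 - q - 1) : Polynomial k)) =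
        ((q : ℤ) ^ 2 - q) * P.ord t := by
    have h1 : Polynomial.aeval t (Polynomial.X ^ (q ^ 2 - q) -
      Polynomial.C 2 * Polynomial.X ^ (q ^ 2 - q - 1) : Polynomial k) =
        t ^ (q ^ 2 - q) + -(algebraMap k L 2 * t ^ (q ^ 2 - q - 1)) := by
      rw [map_sub, map_mul, map_pow, map_pow, Polynomial.aeval_X, Polynomial.aeval_C,
        sub_eq_add_neg]
    have h2 : P.ord (t ^ (q ^ 2 - q)) = ((q : ℤ) ^ 2 - q) * P.ord t := by
      rw [P.ord_pow ht0, Nat.cast_sub e1]
      push_cast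
      rfl
    have h3 : P.ord (t ^ (q ^ 2 - q - 1)) = ((q : ℤ) ^ 2 - q - 1) * P.ord t := by
      rw [P.ord_pow ht0, Nat.cast_sub (by omega), Nat.cast_sub e1]
      push_cast
      rfl
    have h4 := P.ord_add_of_lt (x := t ^ (q ^ 2 - q))
      (y := -(algebraMap k L 2 * t ^ (q ^ 2 - q - 1))) (pow_ne_zero _ ht0) (by
        refine P.ge_mono (P.ge_neg (P.ge_mul (P.ge_const 2) (P.ge_ord _))) ?_
        rw [h2, h3]
        nlinarith)
    rw [h1]
    exact ⟨h4.1, h4.2.trans h2⟩
  have hB : Polynomial.aeval t (-Polynomial.X ^ (q ^ 2 - 2) : Polynomial k) ≠ 0 ∧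
      P.ord (Polynomial.aeval t (-Polynomial.X ^ (q ^ 2 - 2) : Polynomial k)) =
        ((q : ℤ) ^ 2 - 2) * P.ord t := by
    have h1 : Polynomial.aeval t (-Polynomial.X ^ (q ^ 2 - 2) : Polynomial k) =
        -t ^ (q ^ 2 - 2) := by
      rw [map_neg, map_pow, Polynomial.aeval_X]
    rw [h1]
    refine ⟨neg_ne_zero.mpr (pow_ne_zero _ ht0), ?_⟩
    rw [P.ord_neg, P.ord_pow ht0, Nat.cast_sub e3]
    push_cast
    rfl
  have hne : ∀ c : Fin 3 → F, c ≠ 0 → xc k X c ≠ 0 := fun c hc h => hc (hS.ind c h)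
  have hkind : ∀ c : Fin 3 → F, c ≠ 0 →
      ((q : ℤ) - 1) * P.ord (xc k X c) = -(((q : ℤ) ^ 2 - 2) * P.ord t) ∨
      (q : ℤ) * ((q : ℤ) - 1) * P.ord (xc k X c) = ((q : ℤ) - 2) * P.ord t ∨
      (q : ℤ) * P.ord (xc k X c) = P.ord t := fun c hc =>
    kinds P q hq3 (P.ord t) (P.ord (xc k X c)) hP (xc k X c) _ _ (hne c hc) hA.1 hB.1 rfl
      hA.2 hB.2 (xc_rel p f q hp hk hq hF _ _ t X hS c)
  let R : Finset (Fin 3 → F) := (univ : Finset (Fin 3 → F)).filter (fun c => c ≠ 0)
  let KA : (Fin 3 → F) → Prop := fun c =>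
    ((q : ℤ) - 1) * P.ord (xc k X c) = -(((q : ℤ) ^ 2 - 2) * P.ord t)
  let KB : (Fin 3 → F) → Prop := fun c =>
    (q : ℤ) * ((q : ℤ) - 1) * P.ord (xc k X c) = ((q : ℤ) - 2) * P.ord t
  have hsum : ∑ c ∈ R, P.ord (xc k X c) = 0 :=
    sum_ord p f q hp hk hf hq hF _ _ t X hS P
  have hR : R.card = q ^ 3 - 1 := by
    show ((univ : Finset (Fin 3 → F)).filter (fun c => c ≠ 0)).card = q ^ 3 - 1
    rw [Finset.filter_ne', Finset.card_erase_of_mem
      (Finset.mem_univ _), Finset.card_univ, Fintype.card_fun, Fintype.card_fin,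
      ← Nat.card_eq_fintype_card, hF]
  let RA := R.filter KA
  let RB := (R.filter (fun c => ¬ KA c)).filter KB
  let RC := (R.filter (fun c => ¬ KA c)).filter (fun c => ¬ KB c)
  have hcard : RA.card + RB.card + RC.card = q ^ 3 - 1 := by
    have h1 := Finset.card_filter_add_card_filter_not (s := R) KA
    have h2 := Finset.card_filter_add_card_filter_not (s := R.filter (fun c => ¬ KA c)) KB
    rw [← hR, ← h1, ← h2]
    show RA.card + RB.card + RC.card = RA.card + (RB.card + RC.card)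
    ring
  have hRC : ∀ c ∈ RC, c ≠ 0 ∧ (q : ℤ) * P.ord (xc k X c) = P.ord t := by
    intro c hc
    have h1 := Finset.mem_filter.mp hc
    have h2 := Finset.mem_filter.mp h1.1
    have h3 := Finset.mem_filter.mp h2.1
    refine ⟨h3.2, ?_⟩
    rcases hkind c h3.2 with h | h | h
    · exact absurd h h2.2
    · exact absurd h h1.2
    · exact h
  have hRB : ∀ c ∈ RB, c ≠ 0 ∧ KB c := by
    intro c hc
    have h1 := Finset.mem_filter.mp hc
    have h2 := Finset.mem_filter.mp h1.1
    have h3 := Finset.mem_filter.mp h2.1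
    exact ⟨h3.2, h1.2⟩
  have hRA : ∀ c ∈ RA, c ≠ 0 ∧ KA c := by
    intro c hc
    have h1 := Finset.mem_filter.mp hc
    have h3 := Finset.mem_filter.mp h1.1
    exact ⟨h3.2, h1.2⟩
  have hsum2 : (RA.card : ℤ) * ((q : ℤ) * (-(((q : ℤ) ^ 2 - 2) * P.ord t))) +
      ((RB.card : ℤ) * (((q : ℤ) - 2) * P.ord t) +
        (RC.card : ℤ) * (((q : ℤ) - 1) * P.ord t)) = 0 := by
    have h0 : ∑ c ∈ R, (q : ℤ) * ((q : ℤ) - 1) * P.ord (xc k X c) = 0 := by
      rw [← Finset.mul_sum, hsum, mul_zero]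
    rw [← Finset.sum_filter_add_sum_filter_not R KA,
      ← Finset.sum_filter_add_sum_filter_not (R.filter (fun c => ¬ KA c)) KB] at h0
    have s1 : ∑ c ∈ RA, (q : ℤ) * ((q : ℤ) - 1) * P.ord (xc k X c) =
        (RA.card : ℤ) * ((q : ℤ) * (-(((q : ℤ) ^ 2 - 2) * P.ord t))) := by
      have h1 : ∀ c ∈ RA, (q : ℤ) * ((q : ℤ) - 1) * P.ord (xc k X c) =
          (q : ℤ) * (-(((q : ℤ) ^ 2 - 2) * P.ord t)) := by
        intro c hc
        rw [mul_assoc, (hRA c hc).2]
      rw [Finset.sum_congr rfl h1, Finset.sum_const, nsmul_eq_mul]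
    have s2 : ∑ c ∈ RB, (q : ℤ) * ((q : ℤ) - 1) * P.ord (xc k X c) =
        (RB.card : ℤ) * (((q : ℤ) - 2) * P.ord t) := by
      have h1 : ∀ c ∈ RB, (q : ℤ) * ((q : ℤ) - 1) * P.ord (xc k X c) =
          ((q : ℤ) - 2) * P.ord t := fun c hc => (hRB c hc).2
      rw [Finset.sum_congr rfl h1, Finset.sum_const, nsmul_eq_mul]
    have s3 : ∑ c ∈ RC, (q : ℤ) * ((q : ℤ) - 1) * P.ord (xc k X c) =
        (RC.card : ℤ) * (((q : ℤ) - 1) * P.ord t) := by
      have h1 : ∀ c ∈ RC, (q : ℤ) * ((q : ℤ) - 1) * P.ord (xc k X c) =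
          ((q : ℤ) - 1) * P.ord t := by
        intro c hc
        have h := (hRC c hc).2
        linear_combination ((q : ℤ) - 1) * h
      rw [Finset.sum_congr rfl h1, Finset.sum_const, nsmul_eq_mul]
    rw [← s1, ← s2, ← s3]
    exact h0
  have hcan : (RA.card : ℤ) * ((q : ℤ) * ((q : ℤ) ^ 2 - 2)) =
      (RB.card : ℤ) * ((q : ℤ) - 2) + (RC.card : ℤ) * ((q : ℤ) - 1) := by
    have h1 : P.ord t * ((RA.card : ℤ) * ((q : ℤ) * ((q : ℤ) ^ 2 - 2))) =
        P.ord t * ((RB.card : ℤ) * ((q : ℤ) - 2) + (RC.card : ℤ) * ((q : ℤ) - 1)) := by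
      linear_combination -hsum2
    exact mul_left_cancel₀ hP.ne h1
  have hcard2 : (RA.card : ℤ) + RB.card + RC.card = (q : ℤ) ^ 3 - 1 := by
    have h1 : RA.card + RB.card + RC.card + 1 = q ^ 3 := by
      have : 1 ≤ q ^ 3 := Nat.one_le_pow _ _ (by omega)
      omega
    have h2 : (RA.card : ℤ) + RB.card + RC.card + 1 = (q : ℤ) ^ 3 := by exact_mod_cast h1
    linarith
  have hcinj : Function.Injective (algebraMap F k) := (algebraMap F k).injective
  have hcst : ∀ (a : F) (x : L), a ≠ 0 → x ≠ 0 → P.ord (cst k F L a * x) = P.ord x ∧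
      cst k F L a * x ≠ 0 := by
    intro a x ha hx
    have h1 : algebraMap F k a ≠ 0 := (map_ne_zero_iff _ hcinj).mpr ha
    have h2 : cst k F L a ≠ 0 := (map_ne_zero_iff _ (algebraMap k L).injective).mpr h1
    refine ⟨?_, mul_ne_zero h2 hx⟩
    rw [P.ord_mul _ _ h2 hx]
    have h3 : P.ord (cst k F L a) = 0 := P.ord_const _ h1
    rw [h3, zero_add]
  have hscal : 1 ≤ (RA.card : ℤ) → (q : ℤ) - 1 ≤ RA.card := by
    intro h1
    have h2 : 0 < RA.card := by exact_mod_cast h1
    obtain ⟨c, hc⟩ := Finset.card_pos.mp h2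
    have h3 : ((univ : Finset Fˣ).image (fun u : Fˣ => (u : F) • c)) ⊆ RA := by
      intro d hd
      obtain ⟨u, -, rfl⟩ := Finset.mem_image.mp hd
      have hc' := hRA c hc
      refine Finset.mem_filter.mpr ⟨Finset.mem_filter.mpr ⟨Finset.mem_univ _,
        smul_ne_zero u.ne_zero hc'.1⟩, ?_⟩
      show ((q : ℤ) - 1) * P.ord (xc k X ((u : F) • c)) = -(((q : ℤ) ^ 2 - 2) * P.ord t)
      rw [xc_smul, (hcst u _ u.ne_zero (hne c hc'.1)).1]
      exact hc'.2
    have h4 := Finset.card_le_card h3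
    rw [Finset.card_image_of_injective, Finset.card_univ, Fintype.card_units,
      ← Nat.card_eq_fintype_card, hF] at h4
    · have h5 : q ≤ RA.card + 1 := by omega
      have h6 : (q : ℤ) ≤ RA.card + 1 := by exact_mod_cast h5
      linarith
    · intro u v huv
      have hc' := (hRA c hc).1
      exact Units.ext (smul_left_injective F hc' huv)
  obtain ⟨hA1, hB1, hC1⟩ := count q RA.card RB.card RC.card hQ (Nat.cast_nonneg _)
    (Nat.cast_nonneg _) hcan hcard2 hscal (Nat.cast_nonneg _)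
  obtain ⟨cA, hcA⟩ := Finset.card_pos.mp (by exact_mod_cast hA1 : 0 < RA.card)
  obtain ⟨cB, hcB⟩ := Finset.card_pos.mp (by exact_mod_cast hB1 : 0 < RB.card)
  obtain ⟨cC, hcC⟩ := Finset.card_pos.mp (by exact_mod_cast hC1 : 0 < RC.card)
  have kA := hRA cA hcA
  have kB := hRB cB hcB
  have kC := hRC cC hcC
  have kA2 : ((q : ℤ) - 1) * P.ord (xc k X cA) = -(((q : ℤ) ^ 2 - 2) * P.ord t) := kA.2
  have kB2 : (q : ℤ) * ((q : ℤ) - 1) * P.ord (xc k X cB) = ((q : ℤ) - 2) * P.ord t := kB.2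
  have oA : 0 < P.ord (xc k X cA) := by
    by_contra h
    rw [not_lt] at h
    have h1 : ((q : ℤ) - 1) * P.ord (xc k X cA) ≤ 0 :=
      mul_nonpos_of_nonneg_of_nonpos (by linarith) h
    have h2 : ((q : ℤ) ^ 2 - 2) * P.ord t < 0 := mul_neg_of_pos_of_neg (by nlinarith) hP
    linarith
  have oB : P.ord (xc k X cB) < 0 := by
    by_contra h
    rw [not_lt] at h
    have h1 : 0 ≤ (q : ℤ) * ((q : ℤ) - 1) * P.ord (xc k X cB) :=
      mul_nonneg (mul_nonneg (by linarith) (by linarith)) h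
    have h2 : ((q : ℤ) - 2) * P.ord t < 0 := mul_neg_of_pos_of_neg (by linarith) hP
    linarith
  have oCB : P.ord (xc k X cC) < P.ord (xc k X cB) := by
    have h1 : (q : ℤ) * ((q : ℤ) - 1) * P.ord (xc k X cC) <
        (q : ℤ) * ((q : ℤ) - 1) * P.ord (xc k X cB) := by
      have h2 : (q : ℤ) * ((q : ℤ) - 1) * P.ord (xc k X cC) = ((q : ℤ) - 1) * P.ord t := by
        rw [← kC.2]; ring
      rw [kB2, h2]
      nlinarith
    exact lt_of_mul_lt_mul_left h1 (mul_nonneg (by linarith) (by linarith))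
  let h : Matrix (Fin 3) (Fin 3) F := Matrix.of fun j i => (![cA, cB, cC] : Fin 3 → Fin 3 → F) i j
  have hdet : h.det ≠ 0 := by
    intro hd
    obtain ⟨v, hv0, hv⟩ := Matrix.exists_mulVec_eq_zero_iff.mpr hd
    have h1 : cst k F L (v 0) * xc k X cA + cst k F L (v 1) * xc k X cB +
        cst k F L (v 2) * xc k X cC = 0 := by
      have h2 : v 0 • cA + v 1 • cB + v 2 • cC = 0 := by
        funext j
        have h3 := congrFun hv j
        simp only [Matrix.mulVec, dotProduct, Fin.sum_univ_three] at h3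
        have h4 : h j 0 * v 0 + h j 1 * v 1 + h j 2 * v 2 = 0 := h3
        show v 0 * cA j + v 1 * cB j + v 2 * cC j = 0
        have h5 : h j 0 = cA j := rfl
        have h6 : h j 1 = cB j := rfl
        have h7 : h j 2 = cC j := rfl
        rw [h5, h6, h7] at h4
        linear_combination h4
      have h3 : xc k X (v 0 • cA + v 1 • cB + v 2 • cC) = 0 := by
        rw [h2]
        unfold xc cst
        simp
      have hadd : ∀ c d : Fin 3 → F, xc k X (c + d) = xc k X c + xc k X d := by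
        intro c d
        unfold xc cst
        rw [← Finset.sum_add_distrib]
        refine Finset.sum_congr rfl (fun i _ => ?_)
        rw [Pi.add_apply, map_add, map_add, add_mul]
      rw [hadd, hadd, xc_smul, xc_smul, xc_smul] at h3
      exact h3
    have hz : cst k F L (0 : F) = 0 := by unfold cst; rw [map_zero, map_zero]
    by_cases v2 : v 2 = 0
    · by_cases v1 : v 1 = 0
      · by_cases v0 : v 0 = 0
        · apply hv0
          funext i
          fin_cases i
          · exact v0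
          · exact v1
          · exact v2
        · rw [v1, v2, hz, zero_mul, zero_mul, add_zero, add_zero] at h1
          exact (hcst (v 0) _ v0 (hne cA kA.1)).2 h1
      · have b1 := hcst (v 1) _ v1 (hne cB kB.1)
        have g1 : P.Ge (cst k F L (v 0) * xc k X cA)
            (P.ord (cst k F L (v 1) * xc k X cB) + 1) := by
          by_cases v0 : v 0 = 0
          · exact Or.inl (by rw [v0, hz, zero_mul])
          · have a1 := hcst (v 0) _ v0 (hne cA kA.1)
            refine Or.inr ?_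
            rw [a1.1, b1.1]
            omega
        have h6 := (P.ord_add_of_lt b1.2 g1).1
        apply h6
        rw [v2, hz, zero_mul, add_zero] at h1
        rw [add_comm]
        exact h1
    · have c1 := hcst (v 2) _ v2 (hne cC kC.1)
      have g1 : P.Ge (cst k F L (v 0) * xc k X cA)
          (P.ord (cst k F L (v 2) * xc k X cC) + 1) := by
        by_cases v0 : v 0 = 0
        · exact Or.inl (by rw [v0, hz, zero_mul])
        · have a1 := hcst (v 0) _ v0 (hne cA kA.1)
          refine Or.inr ?_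
          rw [a1.1, c1.1]
          omega
      have g2 : P.Ge (cst k F L (v 1) * xc k X cB)
          (P.ord (cst k F L (v 2) * xc k X cC) + 1) := by
        by_cases v1 : v 1 = 0
        · exact Or.inl (by rw [v1, hz, zero_mul])
        · have b1 := hcst (v 1) _ v1 (hne cB kB.1)
          refine Or.inr ?_
          rw [b1.1, c1.1]
          omega
      have h6 := (P.ord_add_of_lt c1.2 (P.ge_add g1 g2)).1
      apply h6
      rw [add_comm]
      exact h1
  obtain ⟨G₁, ρ₁, hS1, hC1'⟩ := h36 p k F L f q _ _ t X G₀ ρ h hp hk hf hq hF hS hC hdet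
  exact ⟨L, iL, iA, t, fun i => ∑ j, cst k F L (h j i) * X j, G₁, ρ₁, P, hS1, hC1', hP,
    kA2, kB2, kC.2⟩

end Pool.CND
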